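import Pool.Agent.X251.HeisFinal

set_option autoImplicit false

namespace Pool.Agent.Results.MP_eff972_al.HeisenbergRotation

open Pool.Agent.X251.HeisRot

/-- There is a finitely generated group whose automorphic growth rate is polynomially bounded but not
polynomial: for **every** finite generating set `S` of this group the automorphic growth function
`autGrowth S` satisfies `autGrowth S ≼ n ^ d` for some `d`, and it is not `∼ n ^ k` for any `k ≥ 0`.
(`LenLE`, `autGrowth`, `Preceq`, `PolyBounded` and `IsPolynomial` are defined in
`Pool.Agent.X251.HeisRot`, file `Pool/Agent/X251/HeisRot.lean`.) -/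
theorem result : ∃ (G : Type) (_ : Group G),
    (∃ S : Finset G, Subgroup.closure (S : Set G) = ⊤) ∧
    ∀ S : Finset G, Subgroup.closure (S : Set G) = ⊤ →
      PolyBounded (autGrowth S) ∧ ¬ IsPolynomial (autGrowth S) :=
  main

end Pool.Agent.Results.MP_eff972_al.HeisenbergRotation
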